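import Mathlib
import Pool.Agent.Lib.helper23.RandC

set_option autoImplicit false

open Filter Topology

namespace Pool.Agent.Results.MP_6ea370_an.Main

/-- Shift of finite type: defined by finitely many forbidden patterns. -/
def IsSFT {G A : Type} [Group G] (X : Set (G → A)) : Prop :=
  ∃ P : Set (Σ F : Finset G, (F → A)), P.Finite ∧
    X = {x | ∀ t : G, ∀ p ∈ P, (fun s : p.1 => x (t⁻¹ * s)) ≠ p.2}

/-- Sofic approximation. -/
def IsSofic {G : Type} [Group G] (K : ℕ → Type) (π : ∀ n, G → Equiv.Perm (K n)) : Prop :=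
  (∀ s t, Tendsto (fun n => (Nat.card {k // π n (s * t) k = π n s (π n t k)} : ℝ) /
    Nat.card (K n)) atTop (𝓝 1)) ∧
  ∀ s, s ≠ 1 → Tendsto (fun n => (Nat.card {k // π n s k ≠ k} : ℝ) / Nat.card (K n)) atTop (𝓝 1)

/-- The set of (F, δ)-microstates. -/
def Om {G A K : Type} [Group G] (X : Set (G → A)) (π : G → Equiv.Perm K) (F : Finset G) (δ : ℝ) :
    Set (K → A) :=
  {ω | (1 - δ) * Nat.card K ≤ Nat.card {k // ∃ x ∈ X, ∀ s ∈ F, x s = ω (π s⁻¹ k)}}

/-- Sofic topological entropy. -/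
noncomputable def ent {G A : Type} [Group G] (X : Set (G → A)) (K : ℕ → Type)
    (π : ∀ n, G → Equiv.Perm (K n)) : EReal :=
  ⨅ (F : Finset G) (δ : ℝ) (_ : 0 < δ), limsup
    (fun n => ENNReal.log (Nat.card (Om X (π n) F δ)) / (Nat.card (K n) : EReal)) atTop

/-- The set of all sofic entropies of SFTs over G. -/
def Vals (G : Type) [Group G] : Set EReal :=
  {h | ∃ (A : Type) (X : Set (G → A)) (K : ℕ → Type) (π : ∀ n, G → Equiv.Perm (K n)),
    Finite A ∧ (∀ n, Finite (K n)) ∧ IsSFT X ∧ IsSofic K π ∧ h = ent X K π}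

open Finset Pool.Agent.Lib.helper23 RandB RandC

lemma sft {G A : Type} [Group G] [Finite A] (F : Finset G) (Q : (F → A) → Prop) :
    IsSFT {x : G → A | ∀ t, Q fun s => x (t⁻¹ * s)} := by
  refine ⟨(fun p => ⟨F, p⟩) '' {p | ¬ Q p}, (Set.toFinite _).image _, ?_⟩
  ext x
  refine forall_congr' fun t => ⟨?_, fun h => ?_⟩
  · rintro h _ ⟨p, hp, rfl⟩ h'
    exact hp ((congrArg Q h').mp h)
  · by_contra h'
    exact h _ ⟨_, h', rfl⟩ rfl

lemma range_ent {G A : Type} [Group G] [Finite A] (X : Set (G → A)) (K : ℕ → Type)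
    [∀ n, Finite (K n)] (π : ∀ n, G → Equiv.Perm (K n)) :
    ent X K π = ⊥ ∨ ∃ x : ℝ, 0 ≤ x ∧ ent X K π = x := by
  by_cases h : ent X K π = ⊥
  · exact Or.inl h
  have h1 : 0 ≤ ent X K π := by
    refine le_iInf fun F => le_iInf₂ fun δ hδ => le_limsup_of_frequently_le' ?_
    refine (frequently_lt_of_lt_limsup (by isBoundedDefault) ((bot_lt_iff_ne_bot.2 h).trans_le
      (iInf_le_of_le F (iInf₂_le δ hδ)))).mono fun n hn => ?_
    rcases Nat.eq_zero_or_pos (Nat.card (Om X (π n) F δ)) with h0 | h0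
    · rcases Nat.eq_zero_or_pos (Nat.card (K n)) with h2 | h2
      · simp [h2]
      · rw [h0, Nat.cast_zero, ENNReal.log_zero, EReal.bot_div_of_pos_ne_top
          (by exact_mod_cast h2) (EReal.natCast_ne_top _)] at hn
        exact absurd hn (lt_irrefl _)
    · exact EReal.div_nonneg (ENNReal.zero_le_log_iff.2 (by exact_mod_cast h0))
        (by exact_mod_cast Nat.zero_le _)
  have h2 : ent X K π ≤ ((Nat.card A : ℝ) : EReal) := by
    refine iInf_le_of_le ∅ (iInf₂_le_of_le 1 one_pos (limsup_le_of_le (by isBoundedDefault)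
      (Eventually.of_forall fun n => ?_)))
    rcases Nat.eq_zero_or_pos (Nat.card (K n)) with h2 | h2
    · simp [h2]
    refine lg_le h2 ?_
    have h3 : Nat.card (Om X (π n) ∅ 1) ≤ Nat.card A ^ Nat.card (K n) := by
      rw [← Nat.card_fun]; exact Finite.card_subtype_le _
    refine (Nat.cast_le.2 h3).trans ?_
    rw [mul_comm, Real.exp_nat_mul]
    push_cast
    exact pow_le_pow_left₀ (Nat.cast_nonneg _) (by linarith [Real.add_one_le_exp (Nat.card A)]) _
  exact Or.inr ⟨(ent X K π).toReal, EReal.toReal_nonneg h1,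
    (EReal.coe_toReal (h2.trans_lt (EReal.coe_lt_top _)).ne h).symm⟩

abbrev Fr (r : ℕ) := FreeGroup (Fin (r + 2))

def ψ (r : ℕ) : Fr r →* Equiv.Perm Bool := FreeGroup.lift fun _ => Equiv.boolNot

def XX (r k : ℕ) : Set (Fr r → Option (Bool × Fin k)) :=
  {x | ∀ g i, (x (g * FreeGroup.of i)).map Prod.fst = ((x g).map Prod.fst).map not}

lemma XX_sft (r k : ℕ) : IsSFT (XX r k) := by
  classical
  convert sft (A := Option (Bool × Fin k)) (insert (1 : Fr r) (univ.image FreeGroup.of))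
    fun p => ∀ i, (p ⟨FreeGroup.of i, mem_insert_of_mem (mem_image_of_mem _ (mem_univ i))⟩).map
      Prod.fst = ((p ⟨1, mem_insert_self _ _⟩).map Prod.fst).map not
  ext x
  exact ⟨fun h t i => by simpa using h t⁻¹ i, fun h g i => by simpa using h g⁻¹ i⟩

lemma ψ_of (r : ℕ) (i : Fin (r + 2)) : ⇑(ψ r (FreeGroup.of i)) = not := by
  ext b; simp [ψ]

lemma ψ_inv (r : ℕ) (i : Fin (r + 2)) : ⇑(ψ r (FreeGroup.of i)⁻¹) = not := by
  ext b; cases b <;> simp [ψ, Equiv.Perm.inv_eq_iff_eq]

lemma XX_col {r k : ℕ} {x : Fr r → Option (Bool × Fin k)} (hx : x ∈ XX r k) (s : Fr r) :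
    ∀ g, (x (g * s)).map Prod.fst = ((x g).map Prod.fst).map (ψ r s⁻¹) := by
  induction s using FreeGroup.induction_on with
  | C1 => simp
  | of i => intro g; rw [ψ_inv]; exact hx g i
  | inv_of i _ =>
    intro g
    have := hx (g * (FreeGroup.of i)⁻¹) i
    rw [inv_mul_cancel_right] at this
    rw [inv_inv, ψ_of, this]
    rcases (x (g * (FreeGroup.of i)⁻¹)).map Prod.fst with _ | b <;> simp
  | mul s t hs ht =>
    intro g
    rw [← mul_assoc, ht, hs, mul_inv_rev, map_mul, Option.map_map]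
    rfl

abbrev KK (a b : ℕ) := (Fin a × Bool) ⊕ Fin b

noncomputable def pp {r a b : ℕ} (σ : Fin (r + 2) → Equiv.Perm (Fin a))
    (τ : Fin (r + 2) → Equiv.Perm (Fin b)) (s : Fr r) : Equiv.Perm (KK a b) :=
  Equiv.sumCongr (Equiv.prodCongr (FreeGroup.lift σ s) (ψ r s)) (FreeGroup.lift τ s)

lemma pp_mul {r a b : ℕ} (σ : Fin (r + 2) → Equiv.Perm (Fin a))
    (τ : Fin (r + 2) → Equiv.Perm (Fin b)) (s t : Fr r) (k : KK a b) :
    pp σ τ (s * t) k = pp σ τ s (pp σ τ t k) := by
  rcases k with ⟨v, c⟩ | v <;> simp [pp]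

lemma pp_one {r a b : ℕ} (σ : Fin (r + 2) → Equiv.Perm (Fin a))
    (τ : Fin (r + 2) → Equiv.Perm (Fin b)) (k : KK a b) : pp σ τ 1 k = k := by
  rcases k with ⟨v, c⟩ | v <;> simp [pp]

lemma pp_fix {r a b : ℕ} (σ : Fin (r + 2) → Equiv.Perm (Fin a))
    (τ : Fin (r + 2) → Equiv.Perm (Fin b)) (s : Fr r) :
    (univ.filter fun k => pp σ τ s k = k).card ≤
      (univ.filter fun v => FreeGroup.lift σ s v = v).card * 2 +
      (univ.filter fun v => FreeGroup.lift τ s v = v).card := by
  refine (card_le_card (t := ((univ.filter fun v => FreeGroup.lift σ s v = v) ×ˢ univ).disjSum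
    (univ.filter fun v => FreeGroup.lift τ s v = v)) fun k hk => ?_).trans (by simp)
  rcases k with ⟨v, c⟩ | v <;> simp_all [pp]

lemma lower {r a b k : ℕ} (σ : Fin (r + 2) → Equiv.Perm (Fin a))
    (τ : Fin (r + 2) → Equiv.Perm (Fin b)) (F : Finset (Fr r)) {δ : ℝ} (hδ : 0 < δ) :
    k ^ (a * 2) ≤ Nat.card (Om (XX r k) (pp σ τ) F δ) := by
  set w : (Fin a × Bool → Fin k) → KK a b → Option (Bool × Fin k) := fun f =>
    Sum.elim (fun p => some (p.2, f p)) fun _ => none with hw
  have h1 : ∀ f, w f ∈ Om (XX r k) (pp σ τ) F δ := by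
    intro f
    have h2 : ∀ v, ∃ x ∈ XX r k, ∀ s ∈ F, x s = w f (pp σ τ s⁻¹ v) := by
      intro v
      refine ⟨fun s => w f (pp σ τ s⁻¹ v), fun g i => ?_, fun _ _ => rfl⟩
      dsimp only
      rw [mul_inv_rev, pp_mul]
      rcases pp σ τ g⁻¹ v with ⟨u, c⟩ | u
      · simp [hw, pp, -map_inv, ψ_inv]
      · simp [hw, pp]
    change (1 - δ) * _ ≤ _
    rw [Nat.card_congr (Equiv.subtypeUnivEquiv h2)]
    nlinarith [mul_nonneg hδ.le (Nat.cast_nonneg (Nat.card (KK a b)))]
  have h3 := Nat.card_le_card_of_injective (fun f => (⟨w f, h1 f⟩ : Om (XX r k) (pp σ τ) F δ))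
    fun f f' h => funext fun p => by
      simpa [hw] using congrFun (congrArg Subtype.val h) (Sum.inl p)
  simpa using h3

lemma upper {r a b k : ℕ} (hk : 1 ≤ k) (σ : Fin (r + 2) → Equiv.Perm (Fin a))
    (τ : Fin (r + 2) → Equiv.Perm (Fin b)) (F : Finset (Fr r)) (hF : ∀ i, FreeGroup.of i ∈ F)
    {δ ε E : ℝ} (hτ : ∀ ω : Fin b → Option Bool, (∀ i, ((univ.filter fun v =>
      ω (τ i v) ≠ (ω v).map not).card : ℝ) ≤ δ * Fintype.card (KK a b)) →
      ((univ.filter fun v => ω v ≠ none).card : ℝ) ≤ ε)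
    (hE : ((univ.filter fun c : KK a b → Option Bool => ((univ.filter fun v =>
      ¬ ∀ g ∈ F, c (pp σ τ g v) = (c v).map (ψ r g)).card : ℝ)
      ≤ δ * Fintype.card (KK a b)).card : ℝ) ≤ E) :
    (Nat.card (Om (XX r k) (pp σ τ) (insert 1 (F.image (·⁻¹))) δ) : ℝ) ≤
      E * Real.exp ((a * 2 + ε) * Real.log k) := by
  classical
  set T := univ.filter fun c : KK a b → Option Bool => ((univ.filter fun v =>
      ¬ ∀ g ∈ F, c (pp σ τ g v) = (c v).map (ψ r g)).card : ℝ) ≤ δ * Fintype.card (KK a b)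
  rw [Nat.card_eq_fintype_card, Fintype.card_subtype, card_eq_sum_card_fiberwise
    (f := fun (ω : KK a b → Option (Bool × Fin k)) v => (ω v).map Prod.fst) (t := T)]
  · push_cast
    refine (sum_le_card_nsmul _ _ (Real.exp ((a * 2 + ε) * Real.log k)) fun c hc => ?_).trans ?_
    · have h1 := (card_le_card (filter_subset_filter _ (subset_univ (univ.filter fun ω =>
        ω ∈ Om (XX r k) (pp σ τ) (insert 1 (F.image (·⁻¹))) δ)))).trans
        (fibre hk c)
      have h2 := hτ (fun v => c (Sum.inr v)) fun i => by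
        refine le_trans (Nat.cast_le.2 (card_le_card_of_injOn Sum.inr (fun v hv => ?_)
          Sum.inr_injective.injOn)) (mem_filter.1 hc).2
        refine mem_coe.2 (mem_filter.2 ⟨mem_univ _, fun h => (mem_filter.1 (mem_coe.1 hv)).2 ?_⟩)
        simpa [pp, ψ_of] using h _ (hF i)
      have h3 : (univ.filter fun v => c v ≠ none).card ≤
          a * 2 + (univ.filter fun v => c (Sum.inr v) ≠ none).card := by
        refine (card_le_card (t := univ.disjSum (univ.filter fun v => c (Sum.inr v) ≠ none))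
          fun v hv => ?_).trans (by simp)
        rcases v with v | v <;> simp_all
      have h4 := (Nat.cast_le (α := ℝ)).2 h3
      have hk' : (1:ℝ) ≤ k := by exact_mod_cast hk
      refine ((Nat.cast_le (α := ℝ)).2 h1).trans ?_
      push_cast at h4 ⊢
      rw [← Real.exp_log (by linarith : (0:ℝ) < k), ← Real.exp_nat_mul, Real.exp_log (by linarith),
        Real.exp_le_exp]
      exact mul_le_mul_of_nonneg_right (by linarith) (Real.log_nonneg hk')
    · rw [nsmul_eq_mul]
      exact mul_le_mul_of_nonneg_right hE (Real.exp_pos _).le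
  · intro ω hω
    have h1 : (1 - δ) * _ ≤ _ := (mem_filter.1 (mem_coe.1 hω)).2
    refine mem_coe.2 (mem_filter.2 ⟨mem_univ _, ?_⟩)
    rw [Nat.card_eq_fintype_card, Nat.card_eq_fintype_card, Fintype.card_subtype] at h1
    have h2 := card_filter_add_card_filter_not (s := univ) fun v =>
      ∀ g ∈ F, (ω (pp σ τ g v)).map Prod.fst = ((ω v).map Prod.fst).map (ψ r g)
    have h3 : (univ.filter fun v => ∃ x ∈ XX r k, ∀ s ∈ insert 1 (F.image (·⁻¹)),
        x s = ω (pp σ τ s⁻¹ v)).card ≤ (univ.filter fun v => ∀ g ∈ F,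
        (ω (pp σ τ g v)).map Prod.fst = ((ω v).map Prod.fst).map (ψ r g)).card := by
      refine card_le_card fun v hv => mem_filter.2 ⟨mem_univ _, fun g hg => ?_⟩
      obtain ⟨x, hx, h⟩ := (mem_filter.1 hv).2
      have h4 := XX_col hx g⁻¹ 1
      rw [one_mul, h _ (mem_insert_of_mem (mem_image_of_mem _ hg)), h 1 (mem_insert_self _ _),
        inv_inv, inv_one, pp_one] at h4
      exact h4
    have h4 := (Nat.cast_le (α := ℝ)).2 h3
    have h5 := congrArg (Nat.cast (R := ℝ)) h2
    rw [card_univ] at h5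
    push_cast at h5
    linarith

theorem main (r k : ℕ) (hk : 1 ≤ k) {t : ℝ} (ht0 : 0 < t) (ht1 : t < 1) :
    ∃ (K : ℕ → Type) (π : ∀ n, Fr r → Equiv.Perm (K n)), (∀ n, Finite (K n)) ∧ IsSofic K π ∧
      (∀ᶠ n in atTop, 0 < Nat.card (K n)) ∧ ent (XX r k) K π = (t * Real.log k : ℝ) := by
  classical
  obtain ⟨σ, hσ1, hσ2⟩ := rand r
  set a : ℕ → ℕ := fun n => ⌊t * n⌋₊ with ha
  set b : ℕ → ℕ := fun n => 2 * n - a n * 2 with hb
  have ha1 : ∀ n, (a n : ℝ) ≤ t * n := fun n => Nat.floor_le (by positivity)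
  have ha2 : ∀ n, t * n < a n + 1 := fun n => Nat.lt_floor_add_one _
  have hab : ∀ n, a n * 2 + b n = 2 * n := fun n => by
    have : (a n : ℝ) ≤ n := (ha1 n).trans (mul_le_of_le_one_left (Nat.cast_nonneg _) ht1.le)
    have : a n ≤ n := by exact_mod_cast this
    simp only [hb]; omega
  have habR : ∀ n, (a n : ℝ) * 2 + b n = 2 * n := fun n => by exact_mod_cast hab n
  have hcard : ∀ n, Fintype.card (KK (a n) (b n)) = 2 * n := fun n => by simp [hab]
  have hta : Tendsto a atTop atTop :=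
    tendsto_nat_floor_atTop.comp (tendsto_natCast_atTop_atTop.const_mul_atTop ht0)
  have htb : Tendsto b atTop atTop := by
    rw [← tendsto_natCast_atTop_iff (R := ℝ)]
    refine tendsto_atTop_mono (fun n => ?_)
      (tendsto_natCast_atTop_atTop.const_mul_atTop (sub_pos.2 ht1))
    have := ha1 n; have := habR n
    have := mul_nonneg (sub_pos.2 ht1).le (Nat.cast_nonneg n)
    nlinarith
  have hfix : ∀ s, s ≠ 1 → ∀ η : ℝ, 0 < η → ∀ᶠ n in atTop,
      ((univ.filter fun v => pp (σ (a n)) (σ (b n)) s v = v).card : ℝ) ≤ η * (2 * n) := by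
    intro s hs η hη
    filter_upwards [hta.eventually (hσ1 s hs η hη), htb.eventually (hσ1 s hs η hη)] with n h1 h2
    have h3 := (Nat.cast_le (α := ℝ)).2 (pp_fix (σ (a n)) (σ (b n)) s)
    push_cast at h3
    rw [← habR]
    linarith
  have hk' : (1:ℝ) ≤ k := by exact_mod_cast hk
  have hL := Real.log_nonneg hk'
  refine ⟨fun n => KK (a n) (b n), fun n => pp (σ (a n)) (σ (b n)), fun _ => inferInstance,
    ⟨fun s u => ?_, fun s hs => ?_⟩, ?_, le_antisymm ?_ ?_⟩
  · refine tendsto_const_nhds.congr' ?_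
    filter_upwards [eventually_gt_atTop 0] with n hn
    rw [Nat.card_congr (Equiv.subtypeUnivEquiv (pp_mul _ _ s u)), div_self]
    rw [Nat.card_eq_fintype_card, hcard]; positivity
  · refine tendsto_order.2 ⟨fun c hc => ?_, fun c hc => Eventually.of_forall fun n => ?_⟩
    · filter_upwards [eventually_gt_atTop 0, hfix s hs ((1 - c) / 2) (by linarith)] with n hn h
      have h2 := congrArg (Nat.cast (R := ℝ)) (card_filter_add_card_filter_not (s := univ)
        fun v => pp (σ (a n)) (σ (b n)) s v = v)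
      have hn' : (0:ℝ) < n := by exact_mod_cast hn
      rw [Nat.card_eq_fintype_card, Nat.card_eq_fintype_card, Fintype.card_subtype, hcard,
        lt_div_iff₀ (by positivity)]
      rw [card_univ, hcard] at h2
      push_cast at h2 ⊢
      nlinarith
    · exact (div_le_one_of_le₀ (Nat.cast_le.2 (Finite.card_subtype_le _))
        (Nat.cast_nonneg _)).trans_lt hc
  · filter_upwards [eventually_gt_atTop 0] with n hn
    rw [Nat.card_eq_fintype_card, hcard]; positivity
  · refine EReal.le_of_forall_lt_iff_le.1 fun z hz => ?_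
    rw [EReal.coe_lt_coe_iff, ← sub_pos] at hz
    set γ := z - t * Real.log k with hγ
    obtain ⟨δ0, hδ0, hball⟩ := ball (Option Bool) (θ := γ / 4) (by positivity)
    obtain ⟨δ1, hδ1, hnb⟩ := hσ2 (γ / (4 * (Real.log k + 1))) (by positivity)
    obtain ⟨M, hM⟩ := exists_nat_gt (12 / γ)
    have hM0 : (0:ℝ) < M := lt_trans (by positivity) hM
    rw [div_lt_iff₀ hz] at hM
    obtain ⟨F0, -, hF0⟩ := (Set.infinite_univ (α := Fr r)).exists_subset_card_eq (M * M)
    set F := F0 ∪ univ.image FreeGroup.of with hF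
    set δ := min (δ0 / (F.card + 1)) (δ1 * (1 - t)) with hδ
    have hδp : 0 < δ := lt_min (by positivity) (mul_pos hδ1 (sub_pos.2 ht1))
    have hδF : F.card * δ ≤ δ0 := by
      have := min_le_left (δ0 / (F.card + 1)) (δ1 * (1 - t))
      rw [← hδ, le_div_iff₀ (by positivity)] at this
      nlinarith
    refine iInf_le_of_le (insert 1 (F.image (·⁻¹))) (iInf₂_le_of_le δ hδp
      (limsup_le_of_le (by isBoundedDefault) ?_))
    set β := γ / 12 / (M * M * (M * M)) with hβ
    have h1 : ∀ᶠ n in atTop, ∀ p ∈ F0 ×ˢ F0, p.1 ≠ p.2 → ((univ.filter fun v =>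
        pp (σ (a n)) (σ (b n)) (p.2⁻¹ * p.1) v = v).card : ℝ) ≤ β * (2 * n) := by
      rw [eventually_all_finset]
      intro p _
      by_cases h : p.1 = p.2
      · exact Eventually.of_forall fun _ h' => absurd h h'
      · filter_upwards [hfix (p.2⁻¹ * p.1) (fun h' => h (inv_mul_eq_one.1 h').symm) β
          (by positivity)] with n hn _ using hn
    filter_upwards [h1, eventually_gt_atTop 0, htb.eventually hnb] with n hn1 hn hn2
    have hn' : (0:ℝ) < n := by exact_mod_cast hn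
    set Bd : Finset (KK (a n) (b n)) := (F0 ×ˢ F0).biUnion fun p =>
      univ.filter fun v => p.1 ≠ p.2 ∧ pp (σ (a n)) (σ (b n)) (p.2⁻¹ * p.1) v = v with hBd
    have hB : (Bd.card : ℝ) ≤ γ / 12 * (2 * n) := by
      have h2 : (Bd.card : ℝ) ≤ ∑ p ∈ F0 ×ˢ F0, ((univ.filter fun v => p.1 ≠ p.2 ∧
          pp (σ (a n)) (σ (b n)) (p.2⁻¹ * p.1) v = v).card : ℝ) := by
        exact_mod_cast card_biUnion_le
      refine h2.trans ((sum_le_card_nsmul _ _ (β * (2 * n)) fun p hp => ?_).trans ?_)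
      · by_cases h : p.1 = p.2
        · simp [h]; positivity
        · simpa [h] using hn1 p hp h
      · rw [nsmul_eq_mul, card_product, hβ, hF0]
        push_cast
        field_simp
        rfl
    obtain ⟨C, hC1, hC2⟩ := net F0 (pp (σ (a n)) (σ (b n))) (by exact_mod_cast hM0) hF0 Bd (by
      intro c hc s hs u hu (hsu : pp _ _ s c = pp _ _ u c)
      by_contra h
      refine hc (mem_biUnion.2 ⟨(s, u), mem_product.2 ⟨hs, hu⟩,
        mem_filter.2 ⟨mem_univ _, h, ?_⟩⟩)
      rw [pp_mul, hsu, ← pp_mul, inv_mul_cancel, pp_one])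
    have hC3 : (C.card : ℝ) ≤ γ / 4 * (2 * n) := by
      rw [hcard] at hC1
      have h2 : (M : ℝ) * C.card ≤ 2 * (2 * n) + M * Bd.card := by exact_mod_cast hC1
      refine le_of_mul_le_mul_left ?_ hM0
      nlinarith [mul_le_mul_of_nonneg_left hB hM0.le, mul_pos hn' (sub_pos.2 hM)]
    have h2 := colourings F (pp (σ (a n)) (σ (b n))) (fun g o => Option.map (ψ r g) o) C
      (fun v hv => by
        obtain ⟨s, hs, h⟩ := hC2 v hv
        exact ⟨s, mem_union_left _ hs, h⟩) hδF
      (hball (KK (a n) (b n)))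
    have h3 := upper hk (σ (a n)) (σ (b n)) F
      (fun i => mem_union_right _ (mem_image_of_mem _ (mem_univ i))) (δ := δ)
      (fun ω hω => hn2 ω fun i => (hω i).trans (by
        rw [hcard]
        push_cast
        have := mul_le_mul_of_nonneg_right (min_le_right (δ0 / (F.card + 1)) (δ1 * (1 - t)))
          (by positivity : (0:ℝ) ≤ 2 * n)
        have h4 : (1 - t) * (2 * n) ≤ b n := by nlinarith [ha1 n, habR n]
        nlinarith [mul_le_mul_of_nonneg_left h4 hδ1.le])) h2
    refine lg_le (by rw [Nat.card_eq_fintype_card, hcard]; positivity) (h3.trans ?_)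
    rw [Nat.card_eq_fintype_card, hcard]
    have h4 : (Fintype.card (Option Bool) : ℝ) ^ C.card ≤ Real.exp (C.card * 2) := by
      rw [Real.exp_nat_mul]
      refine pow_le_pow_left₀ (Nat.cast_nonneg _) ?_ _
      have := Real.add_one_le_exp 2
      simp only [Fintype.card_option, Fintype.card_bool]; push_cast; linarith
    refine (mul_le_mul_of_nonneg_right (mul_le_mul_of_nonneg_left h4 (Real.exp_pos _).le)
      (Real.exp_pos _).le).trans ?_
    rw [← Real.exp_add, ← Real.exp_add, Real.exp_le_exp]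
    have h5 : γ / (4 * (Real.log k + 1)) * b n * Real.log k ≤ γ / 4 * (2 * n) := by
      have h6 : γ / (4 * (Real.log k + 1)) * Real.log k ≤ γ / 4 := by
        rw [div_mul_eq_mul_div, div_le_div_iff₀ (by positivity) (by norm_num)]; nlinarith
      have h7 : (b n : ℝ) ≤ 2 * n := by linarith [habR n, (Nat.cast_nonneg (a n) : (0:ℝ) ≤ _)]
      rw [mul_right_comm]
      exact mul_le_mul h6 h7 (Nat.cast_nonneg _) (by positivity)
    have h6 := mul_le_mul_of_nonneg_right (ha1 n) hL
    push_cast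
    nlinarith
  · refine le_iInf fun F => le_iInf₂ fun δ hδ => EReal.ge_of_forall_gt_iff_ge.1 fun z hz => ?_
    rw [EReal.coe_lt_coe_iff, ← sub_pos] at hz
    refine le_limsup_of_frequently_le' (Eventually.frequently ?_)
    filter_upwards [eventually_gt_atTop 0, (tendsto_natCast_atTop_atTop.const_mul_atTop
      hz).eventually_ge_atTop (Real.log k)] with n hn h1
    refine le_lg (by rw [Nat.card_eq_fintype_card, hcard]; positivity)
      (le_trans ?_ (Nat.cast_le.2 (lower _ _ F hδ)))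
    rw [Nat.card_eq_fintype_card, hcard]
    push_cast
    rw [← Real.exp_log (by linarith : (0:ℝ) < k), ← Real.exp_nat_mul, Real.exp_le_exp]
    push_cast
    nlinarith [mul_le_mul_of_nonneg_right (ha2 n).le hL]

theorem result (r : ℕ) (hr : 2 ≤ r) :
    Vals (FreeGroup (Fin r)) = {⊥} ∪ {h : EReal | ∃ x : ℝ, 0 ≤ x ∧ h = (x : EReal)} := by
  obtain ⟨r, rfl⟩ : ∃ s, r = s + 2 := ⟨r - 2, by omega⟩
  ext h
  constructor
  · rintro ⟨A, X, K, π, _, _, -, -, rfl⟩
    exact range_ent X K π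
  · rintro (rfl | ⟨x, hx, rfl⟩)
    · obtain ⟨K, π, h1, h2, h3, -⟩ := main r 1 le_rfl (t := 1 / 2) (by norm_num) (by norm_num)
      refine ⟨Unit, _, K, π, inferInstance, h1, sft ∅ fun _ => False, h2, (le_bot_iff.1 ?_).symm⟩
      refine iInf_le_of_le ∅ (iInf₂_le_of_le (1 / 2) (by norm_num)
        (limsup_le_of_le (by isBoundedDefault) ?_))
      filter_upwards [h3] with n hn
      have h4 : Om {x : Fr r → Unit | ∀ t : Fr r, False} (π n) ∅ (1 / 2) = ∅ := by
        have : (0:ℝ) < Nat.card (K n) := by exact_mod_cast hn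
        ext ω; simp [Om]; linarith
      rw [h4]
      simp [EReal.bot_div_of_pos_ne_top (a := Nat.card (K n)) (by exact_mod_cast hn)
        (EReal.natCast_ne_top _)]
    · rcases hx.eq_or_lt with rfl | hx
      · obtain ⟨K, π, h1, h2, -, h4⟩ := main r 1 le_rfl (t := 1 / 2) (by norm_num) (by norm_num)
        exact ⟨_, _, K, π, inferInstance, h1, XX_sft r 1, h2, by simp [h4]⟩
      · obtain ⟨k, hk⟩ := exists_nat_gt (Real.exp x)
        have h0 : x < Real.log k := by
          rwa [Real.lt_log_iff_exp_lt ((Real.exp_pos x).trans hk)]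
        have h1 : 1 ≤ k := by
          have : (0:ℝ) < k := (Real.exp_pos x).trans hk
          exact_mod_cast this
        obtain ⟨K, π, h1, h2, -, h4⟩ := main r k h1 (t := x / Real.log k)
          (div_pos hx (hx.trans h0)) ((div_lt_one (hx.trans h0)).2 h0)
        exact ⟨_, _, K, π, inferInstance, h1, XX_sft r k, h2, by
          rw [h4, div_mul_cancel₀ _ (hx.trans h0).ne']⟩

end Pool.Agent.Results.MP_6ea370_an.Main
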